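import Pool.Agent.TH369.SJ.KU12
import Pool.Agent.TH369.AN.OP
import Pool.Agent.TH980.IM.Fin2

/-!
# The conductivity diverges on the absolutely continuous spectrum in two dimensions

`H_ω = -Δ + ω` on `ℤ^d`, with iid `ω_x` of any law with bounded support which is not a point mass
(for instance uniform on `[-c, c]`, any `c > 0`). Let `p > 0` and

  `s_η(ω, E) = η^{1 + p/d} ∑_x |x|^p |G_ω(x, 0; E + iη)|²`.

There is a Borel set `S` of energies such that almost surely `H_ω` has no absolutely continuous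
spectrum outside `S`, and on `S` the random variable `s_η(·, E)` tends to infinity in probability,
locally in measure in `E`, as `η = 1/n → 0`. For `d = 2` and `p = 2` the mean of `s_η(ω, E)` is, up
to a constant factor, Kubo's formula for the direct current conductivity at the energy `E`: in the
two-dimensional model the conductivity is infinite on the absolutely continuous spectrum.
-/

set_option autoImplicit false

open MeasureTheory Filter Topology
open scoped BigOperators ENNReal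

namespace Pool.Agent.Results.MP_562b47_mp.ConductivityDivergence

/-- The Hilbert space `ℓ²(ℤ^d)`. -/
def L2 (d : ℕ) : Type := lp (fun _ : Fin d → ℤ => ℂ) 2

/-- The `ℓ²` norm. -/
noncomputable instance instNorm (d : ℕ) : NormedAddCommGroup (L2 d) :=
  @lp.normedAddCommGroup (Fin d → ℤ) (fun _ => ℂ) 2 _ _

/-- The `ℓ²` inner product. -/
noncomputable instance instInner (d : ℕ) : InnerProductSpace ℂ (L2 d) :=
  @lp.instInnerProductSpace (Fin d → ℤ) ℂ _ (fun _ => ℂ) _ _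

/-- The underlying function of a vector of `ℓ²(ℤ^d)`. -/
def coord {d : ℕ} (u : L2 d) : (Fin d → ℤ) → ℂ := (show lp (fun _ : Fin d → ℤ => ℂ) 2 from u)

/-- Bounded linear operators on a complex inner product space. -/
abbrev Op (X : Type) [NormedAddCommGroup X] [InnerProductSpace ℂ X] : Type := X →L[ℂ] X

/-- the law of iid variables with law `ν` on `ℤ^d` -/
noncomputable def iid (d : ℕ) (ν : Measure ℝ) : Measure ((Fin d → ℤ) → ℝ) :=
  Measure.infinitePi fun _ => ν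

/-- `(H_ω u)(x) = -∑_{|n|=1} (u(x+n) - u(x)) + ω_x u(x)` (the unit vectors `n` are `± e_i`) -/
noncomputable def act {d : ℕ} (ω : (Fin d → ℤ) → ℝ) (u : (Fin d → ℤ) → ℂ) (x : Fin d → ℤ) : ℂ :=
  -(∑ i : Fin d, ((u (x + Pi.single i 1) - u x) + (u (x - Pi.single i 1) - u x))) + (ω x : ℂ) * u x

/-- the bounded operator `H` on `ℓ²(ℤ^d)` is `-Δ + ω` -/
def IsAnderson {d : ℕ} (ω : (Fin d → ℤ) → ℝ) (H : Op (L2 d)) : Prop :=
  ∀ u : L2 d, coord (H u) = act ω (coord u)

/-- `(H - z)⁻¹` -/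
noncomputable def res {X : Type} [NormedAddCommGroup X] [InnerProductSpace ℂ X] (H : Op X) (z : ℂ) :
    Op X :=
  Ring.inverse (H - z • (1 : Op X))

/-- `m` is the spectral measure of `u`: a finite measure with Borel transform
`⟨u, (H - z)⁻¹ u⟩` off the real line. -/
def IsSpectralMeasure {X : Type} [NormedAddCommGroup X] [InnerProductSpace ℂ X]
    (H : Op X) (u : X) (m : Measure ℝ) : Prop :=
  IsFiniteMeasure m ∧ ∀ z : ℂ, z.im ≠ 0 →
    ∫ x, ((x : ℂ) - z)⁻¹ ∂m = inner ℂ u (res H z u)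

/-- `δ_0` -/
noncomputable def delta0 (d : ℕ) : L2 d := lp.single (E := fun _ : Fin d → ℤ => ℂ) 2 0 (1 : ℂ)

/-- `G(x, 0; E + iη)`, the Green function -/
noncomputable def green {d : ℕ} (H : Op (L2 d)) (E η : ℝ) (x : Fin d → ℤ) : ℂ :=
  coord (res H ((E : ℂ) + (η : ℂ) * Complex.I) (delta0 d)) x

/-- `η^{1 + p/d} ∑_x |x|^p |G(x, 0; E + iη)|²` (with `|x| = max_i |x_i|`); for `d = 2`, `p = 2` this
is `η² ∑_x |x|² |G(x, 0; E + iη)|²` -/
noncomputable def spread {d : ℕ} (p : ℝ) (H : Op (L2 d)) (E η : ℝ) : ℝ≥0∞ :=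
  ENNReal.ofReal (η ^ (1 + p / d)) *
    ∑' x : Fin d → ℤ, ENNReal.ofReal (‖x‖ ^ p) * ‖green H E η x‖ₑ ^ 2

theorem coord_inj {d : ℕ} (u v : L2 d) (h : coord u = coord v) : u = v :=
  lp.ext (E := fun _ : Fin d → ℤ => ℂ) (p := 2) h

theorem unique {d : ℕ} (ω : (Fin d → ℤ) → ℝ) (L L' : Op (L2 d))
    (h : IsAnderson ω L) (h' : IsAnderson ω L') : L = L' := by
  refine ContinuousLinearMap.ext fun u => coord_inj _ _ ?_
  rw [h u, h' u]

open Pool.Agent.TH369.AN in
theorem isAnderson_TT {d : ℕ} (c : ℝ) (ω : (Fin d → ℤ) → ℝ) (h : ∀ x, |ω x| ≤ c) :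
    IsAnderson ω (TT ∅ c ω) := by
  intro u
  funext j
  refine (TT_apply ∅ c ω u j).trans ?_
  have hcl : cl c (ω j) = ω j := by
    obtain ⟨h1, h2⟩ := abs_le.1 (h j)
    unfold cl
    rw [min_eq_right h2, max_eq_right h1]
  unfold Pool.Agent.TH369.AN.act act
  rw [if_neg (Finset.notMem_empty _), hcl]
  simp only [Finset.notMem_empty, if_false]
  have h1 : ∑ i : Fin d, ((coord u (j + Pi.single i 1) - coord u j) +
      (coord u (j - Pi.single i 1) - coord u j)) =
      ∑ i : Fin d, (coord u (j + Pi.single i 1) + coord u (j - Pi.single i 1)) -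
        2 * (d : ℂ) * coord u j := by
    rw [Finset.sum_add_distrib, Finset.sum_sub_distrib, Finset.sum_sub_distrib,
      Finset.sum_add_distrib]
    simp
    ring
  rw [h1]
  unfold ee coord
  ring

theorem spread_TT {d : ℕ} (c p : ℝ) (ω : (Fin d → ℤ) → ℝ) (E : ℝ) (k : ℕ) :
    spread (d := d) p (Pool.Agent.TH369.AN.TT ∅ c ω) E (1 / ((k : ℝ) + 1)) =
      Pool.Agent.TH369.SJ.Zp p c ω E k := by
  unfold spread Pool.Agent.TH369.SJ.Zp
  congr 1
  refine tsum_congr fun x => ?_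
  congr 2
  unfold Pool.Agent.TH369.MU.Gk
  rw [Pool.Agent.TH369.AN.inner_dl]
  rfl

theorem delta_ne (d : ℕ) : delta0 d ≠ 0 := by
  intro h
  have h1 := Pool.Agent.TH369.AN.norm_dl (0 : Pool.Agent.TH369.AN.Zd d)
  have h2 : Pool.Agent.TH369.AN.dl (0 : Pool.Agent.TH369.AN.Zd d) = 0 := h
  rw [h2, norm_zero] at h1
  exact zero_ne_one h1

/-- **Theorem.** Let `d ≥ 1`, let `ν` be a law with bounded support which is not a point mass, let
`ω` be iid with law `ν`, and let `p > 0`. Almost surely the bounded operator `H_ω = -Δ + ω` exists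
and is unique. There is a Borel set `S` such that almost surely the spectral measures of all
vectors are singular on the complement of `S`, and such that for all `R` and `M` the integral over
`E ∈ S`, `|E| ≤ R`, of the probability that `η^{1 + p/d} ∑_x |x|^p |G_ω(x, 0; E + iη)|² ≤ M` tends
to zero as `η = 1/(n+1)` tends to zero. -/
theorem result (d : ℕ) (hd : 1 ≤ d) (ν : Measure ℝ) [IsProbabilityMeasure ν]
    (hb : ∃ K : ℝ, ∀ᵐ v ∂ν, |v| ≤ K) (hν : ∀ r : ℝ, ν {r} ≠ 1) (p : ℝ) (hp : 0 < p) :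
    (∀ᵐ ω ∂(iid d ν), ∃! H : Op (L2 d), IsAnderson ω H) ∧
    ∀ H : ((Fin d → ℤ) → ℝ) → Op (L2 d), (∀ᵐ ω ∂(iid d ν), IsAnderson ω (H ω)) →
      ∃ S : Set ℝ, MeasurableSet S ∧
        (∀ᵐ ω ∂(iid d ν), ∀ (u : L2 d) (m : Measure ℝ), IsSpectralMeasure (H ω) u m →
          (m.restrict Sᶜ) ⟂ₘ (volume : Measure ℝ)) ∧
        ∀ R M : ℝ, Tendsto (fun n : ℕ => ∫⁻ E in S ∩ Set.Icc (-R) R,
          (iid d ν) {ω | spread p (H ω) E (1 / ((n : ℝ) + 1)) ≤ ENNReal.ofReal M})
          atTop (𝓝 0) := by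
  obtain ⟨S, hS, hmain⟩ := TH980.IM.final2 (d := d) hd ν hb hν
  obtain ⟨K, hK⟩ := hb
  obtain ⟨c, hc, hKc⟩ : ∃ c : ℝ, 0 ≤ c ∧ K ≤ c := ⟨max K 0, le_max_right _ _, le_max_left _ _⟩
  have hc' : ∀ᵐ v ∂ν, |v| ≤ c := hK.mono fun v hv => hv.trans hKc
  have hsupp : ν (Set.Icc (-c) c)ᶜ = 0 := by
    rw [ae_iff] at hc'
    refine measure_mono_null (fun t ht => ?_) hc'
    intro hcon
    exact ht (abs_le.1 hcon)
  have hb' : ∀ᵐ ω ∂(iid d ν), ∀ x, |ω x| ≤ c := by
    rw [ae_all_iff]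
    intro x
    exact (measurePreserving_eval_infinitePi (fun _ : Fin d → ℤ => ν)
      x).quasiMeasurePreserving.ae hc'
  have hPr : IsProbabilityMeasure (iid d ν) := by unfold iid; infer_instance
  refine ⟨?_, ?_⟩
  · filter_upwards [hb'] with ω hω
    exact ⟨_, isAnderson_TT c ω hω, fun L' h' => unique ω _ _ h' (isAnderson_TT c ω hω)⟩
  intro H hH
  have hHT : ∀ᵐ ω ∂(iid d ν), H ω = Pool.Agent.TH369.AN.TT ∅ c ω := by
    filter_upwards [hb', hH] with ω h1 h2
    exact unique ω _ _ h2 (isAnderson_TT c ω h1)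
  have hm0 : ∀ᵐ ω ∂(iid d ν), ∃ H0 : Op (L2 d), IsAnderson ω H0 ∧
      ∀ B : Set ℝ, MeasurableSet B →
      (volume (B ∩ S) = 0 → ∀ (φ : L2 d) (m : Measure ℝ), IsSpectralMeasure H0 φ m →
        (m.restrict B) ⟂ₘ (volume : Measure ℝ)) ∧
      (volume (B ∩ S) ≠ 0 → ∀ m : Measure ℝ, IsSpectralMeasure H0 (delta0 d) m →
        ¬ (m.restrict B) ⟂ₘ (volume : Measure ℝ)) := by
    filter_upwards [hmain (delta0 d) (delta_ne d)] with ω h0
    obtain ⟨H0, h1, h2, h3, h4⟩ := h0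
    refine ⟨H0, fun u => funext fun j => h1 u j, fun B hB => ⟨?_, ?_⟩⟩
    · intro h7 φ m hm
      exact (h4 B hB).1 h7 φ m hm.1 hm.2
    · intro h7 m hm
      exact (h4 B hB).2 h7 m hm.1 hm.2
  have hpos : ∀ᵐ ω ∂(iid d ν), ∀ᵐ E : ℝ, E ∈ S → 0 < Pool.Agent.TH369.MU.kap c E 0 ω := by
    filter_upwards [hm0, hb'] with ω h1 hω
    obtain ⟨H0, h1, h2⟩ := h1
    have h3 := unique ω _ _ h1 (isAnderson_TT c ω hω)
    refine Pool.Agent.TH369.SJ.kap_pos c hc ω S fun B hB hB0 m hm => ?_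
    refine (h2 B hB).2 hB0 m ⟨hm.1, fun z hz => ?_⟩
    rw [h3]
    exact (hm.2 z hz).symm
  refine ⟨S, hS, ?_, fun R M => ?_⟩
  · filter_upwards [hm0, hH] with ω h1 h3 u m hm
    obtain ⟨H0, h1, h2⟩ := h1
    have h4 := unique ω _ _ h1 h3
    refine (h2 Sᶜ hS.compl).1 ?_ u m ?_
    · rw [Set.compl_inter_self, measure_empty]
    · rw [h4]
      exact hm
  · have h1 := Pool.Agent.TH369.SJ.zp_prob_S (d := d) (by omega) c hc ν hsupp hν p hp S hS hpos
      R (ENNReal.ofReal M) ENNReal.ofReal_ne_top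
    refine h1.congr fun n => ?_
    refine lintegral_congr fun E => ?_
    refine measure_congr ?_
    filter_upwards [hHT] with ω h2
    show (Pool.Agent.TH369.SJ.Zp p c ω E n ≤ ENNReal.ofReal M) =
      (spread p (H ω) E (1 / ((n : ℝ) + 1)) ≤ ENNReal.ofReal M)
    rw [h2, spread_TT]

end Pool.Agent.Results.MP_562b47_mp.ConductivityDivergence
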