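import Pool.Agent.TH369.MU.FI
import Pool.Agent.TH369.MU.CO
import Pool.Agent.TH369.MU.SM
import Pool.Agent.TH369.AN.UNI

/-!
# Uniform Anderson model: an absolutely continuous spectrum would have infinite multiplicity

`Δ_ω = -Δ + ω` on `ℤ^d`, `d ≥ 1`, with iid `ω_j` uniform on `[-c, c]`, any `c > 0`. Almost surely,
for every Borel set `A` of energies and all finite families `f_1, ..., f_n` of vectors: if all the
vectors orthogonal to the cyclic subspace of `f_1, ..., f_n` have a spectral measure which is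
singular on `A` then all vectors have. So the absolutely continuous spectrum has infinite
multiplicity everywhere, if there is any; if finitely many vectors generate `ℓ²(ℤ^d)` under `Δ_ω`
then the spectrum is purely singular.

Idea. The boundary value `G(0, 0; E + i0)` of the Green function is a measurable function of the
independent potential values, so it hardly changes when the value at one far away site `y` is
resampled. But the change is `-τ G(0, y)² / (1 + τ G(y, y))`. Hence `G(0, y; E + i0)` tends to zero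
in probability as `y → ∞`, and at an energy of the absolutely continuous spectrum there are `n`
sites, far apart, on which the matrix `Im G(x_i, x_j; E + i0)` is almost diagonal with diagonal
entries bounded below: it is invertible, for every `n`.
-/

set_option autoImplicit false

open scoped BigOperators ENNReal
open MeasureTheory

namespace Pool.Agent.Results.MP_562b47_mp.InfiniteMultiplicity

/-- the uniform law on `[-c, c]` -/
noncomputable def unif (c : ℝ) : Measure ℝ :=
  ENNReal.ofReal (1 / (2 * c)) • volume.restrict (Set.Icc (-c) c)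

/-- `(Δ_ω u)(j) = -∑_{|n|=1} (u(j+n) - u(j)) + ω_j u(j)` -/
noncomputable def H {d : ℕ} (ω : (Fin d → ℤ) → ℝ) (u : (Fin d → ℤ) → ℂ) (j : Fin d → ℤ) : ℂ :=
  -∑ i : Fin d, ((u (j + Pi.single i 1) - u j) + (u (j - Pi.single i 1) - u j)) + (ω j : ℂ) * u j

/-- square summable functions -/
def SqSummable {d : ℕ} (u : (Fin d → ℤ) → ℂ) : Prop := Summable fun x => ‖u x‖ ^ 2

/-- `m` is the spectral measure of `A` with respect to the vector `g`: a finite measure whose
Borel transform `∫ (t - z)⁻¹ dm(t)` is `⟨g, (A - z)⁻¹ g⟩` for all non-real `z` -/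
def IsSpectralMeasure {d : ℕ} (A : ((Fin d → ℤ) → ℂ) → (Fin d → ℤ) → ℂ) (g : (Fin d → ℤ) → ℂ)
    (m : Measure ℝ) : Prop :=
  IsFiniteMeasure m ∧ ∀ z : ℂ, z.im ≠ 0 → ∃ u : (Fin d → ℤ) → ℂ, SqSummable u ∧
    (∀ x, A u x - z * u x = g x) ∧
    ∫ t : ℝ, ((t : ℂ) - z)⁻¹ ∂m = ∑' x, (starRingEnd ℂ) (g x) * u x

/-- `g` is orthogonal to the cyclic subspace of `f_1, ..., f_n`, the closed span of the vectors
`A^l f_i` -/
def OrthCyclic {d n : ℕ} (A : ((Fin d → ℤ) → ℂ) → (Fin d → ℤ) → ℂ)
    (f : Fin n → (Fin d → ℤ) → ℂ) (g : (Fin d → ℤ) → ℂ) : Prop :=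
  ∀ (i : Fin n) (l : ℕ), ∑' x, (starRingEnd ℂ) (g x) * (A^[l] (f i)) x = 0

theorem H_eq {d : ℕ} (ω : (Fin d → ℤ) → ℝ) :
    H ω = Pool.Agent.H4R2.LO.Hg (-1) (fun x => ω x + 2 * d) := by
  funext u x
  unfold H Pool.Agent.H4R2.LO.Hg
  have h : ∑ i : Fin d, ((u (x + Pi.single i 1) - u x) + (u (x - Pi.single i 1) - u x)) =
      ∑ i : Fin d, (u (x + Pi.single i 1) + u (x - Pi.single i 1)) - 2 * (d : ℂ) * u x := by
    rw [Finset.sum_add_distrib, Finset.sum_sub_distrib, Finset.sum_sub_distrib,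
      Finset.sum_add_distrib]
    simp
    ring
  rw [h]
  push_cast
  ring

open Pool.Agent.TH369.AN in
theorem mk_l2 {d : ℕ} (g : (Fin d → ℤ) → ℂ) (hg : SqSummable g) : ∃ G : L2 d, ∀ x, G x = g x := by
  refine ⟨⟨g, memℓp_gen ?_⟩, fun x => rfl⟩
  simpa [SqSummable] using hg

open Pool.Agent.TH369.AN in
theorem sq_l2 {d : ℕ} (G : L2 d) : SqSummable fun x => G x := by
  have := (lp.memℓp G).summable (by norm_num)
  simpa [SqSummable] using this

/-- **Theorem.** Let `d ≥ 1` and `c > 0`. Almost surely every square summable vector has a spectral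
measure with respect to `Δ_ω`, and for all finite families `f_1, ..., f_n` of square summable
vectors and all Borel sets `A`: if all the spectral measures of vectors orthogonal to the cyclic
subspace of `f_1, ..., f_n` are singular on `A` then all spectral measures are singular on `A`. -/
theorem result (d : ℕ) (hd : 1 ≤ d) (c : ℝ) (hc : 0 < c) :
    ∀ᵐ ω ∂(Measure.infinitePi fun _ : Fin d → ℤ => unif c),
      (∀ g : (Fin d → ℤ) → ℂ, SqSummable g → ∃ m : Measure ℝ, IsSpectralMeasure (H ω) g m) ∧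
      ∀ (n : ℕ) (f : Fin n → (Fin d → ℤ) → ℂ), (∀ i, SqSummable (f i)) →
      ∀ A : Set ℝ, MeasurableSet A →
        (∀ g : (Fin d → ℤ) → ℂ, SqSummable g → OrthCyclic (H ω) f g →
          ∀ m : Measure ℝ, IsSpectralMeasure (H ω) g m → (m.restrict A) ⟂ₘ volume) →
        ∀ g : (Fin d → ℤ) → ℂ, SqSummable g →
          ∀ m : Measure ℝ, IsSpectralMeasure (H ω) g m → (m.restrict A) ⟂ₘ volume := by
  have hP : IsProbabilityMeasure (unif c) := Pool.Agent.TH369.AN.unif_prob c hc
  have hsupp : unif c (Set.Icc (-c) c)ᶜ = 0 := Pool.Agent.TH369.AN.unif_supp c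
  have hnd : ∀ x : ℝ, unif c {x} ≠ 1 := fun x => by
    have h0 : unif c {x} = 0 := Pool.Agent.TH369.AN.unif_atom c x
    rw [h0]
    exact zero_ne_one
  have hfin := Pool.Agent.TH369.MU.fin_mult (d := d) (by omega) c hc.le (unif c) hsupp hnd
  have hb : ∀ᵐ ω ∂(Measure.infinitePi fun _ : Fin d → ℤ => unif c), ∀ x, |ω x| ≤ c := by
    rw [ae_all_iff]
    intro x
    have h1 : ∀ᵐ t ∂(unif c), |t| ≤ c := by
      rw [ae_iff]
      refine measure_mono_null (fun t ht => ?_) hsupp
      intro hcon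
      exact ht (abs_le.2 hcon)
    exact (measurePreserving_eval_infinitePi (fun _ : Fin d → ℤ => unif c)
      x).quasiMeasurePreserving.ae h1
  have e1 : Pool.Agent.TH369.AN.iid d (unif c) =
    Measure.infinitePi fun _ : Fin d → ℤ => unif c := rfl
  rw [e1] at hfin
  filter_upwards [hfin, hb] with ω h1 h2
  have hspec : ∀ (g : (Fin d → ℤ) → ℂ) (hg : SqSummable g) (G : Pool.Agent.TH369.AN.L2 d)
      (hG : ∀ x, G x = g x) (m : Measure ℝ), IsSpectralMeasure (H ω) g m ↔
      Pool.Agent.TH369.MU.SpM (Pool.Agent.TH369.AN.TT ∅ c ω) G m := by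
    intro g hg G hG m
    rw [H_eq]
    exact Pool.Agent.TH369.MU.conv_spec c hc.le ω h2 g hg G hG m
  refine ⟨fun g hg => ?_, ?_⟩
  · obtain ⟨G, hG⟩ := mk_l2 g hg
    obtain ⟨m, hm, -⟩ := Pool.Agent.TH369.MU.spm_exists (Pool.Agent.TH369.AN.TT ∅ c ω)
      (Pool.Agent.TH369.AN.TT_sa ∅ c ω) G
    exact ⟨m, (hspec g hg G hG m).2 hm⟩
  · intro n f hf A hA h g hg m hm
    choose F hF using fun i => mk_l2 (f i) (hf i)
    obtain ⟨G, hG⟩ := mk_l2 g hg
    refine h1 n F A hA ?_ G m ((hspec g hg G hG m).1 hm)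
    intro G' hG' m' hm'
    refine h (fun x => G' x) (sq_l2 G') ?_ m' ((hspec _ (sq_l2 G') G' (fun _ => rfl) m').2 hm')
    intro i l
    rw [← hG' i l, lp.inner_eq_tsum]
    refine tsum_congr fun x => ?_
    rw [H_eq, ← Pool.Agent.TH369.MU.conv_pow c hc.le ω h2 (f i) (F i) (hF i) l x]
    exact mul_comm _ _

end Pool.Agent.Results.MP_562b47_mp.InfiniteMultiplicity
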