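import Pool.Agent.TH794.QE.FinC
import Pool.Agent.W193.BK.ES
import Pool.Agent.W240.BK.Var
import Pool.Agent.W540.BK.Fac
import Pool.Agent.W240.BK.Fluct
import Pool.Agent.W918.BK.Osc
import Pool.Agent.W240.BK.Two
import Pool.Agent.W465.BK.QB
import Pool.Agent.W475.BK.Low
import Pool.Agent.W975.BK.Sup
import Pool.Agent.W790.BK.ADM
import Pool.Agent.W475.BK.Inv
import Pool.Agent.W261.BK.Third

/-!
# Weak disorder, every `d ≥ 2`: diffusion at every fixed energy, for one fixed potential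

`Δ_ω = -Δ + ω` on `ℤ^d`, `d ≥ 2`, `ω_x` iid with any law on `[-c, c]` of mean zero and variance
`σ² ≥ v c²` (no regularity is needed; for the uniform law `σ² = c² / 3`), `c ≤ c₀(d, κ, v)`. With
probability at least `1 - exp(-c^{-1/101})` the following holds simultaneously for

* all sites `|a| ≤ exp(c^{-1/101})` and all directions `j`,
* all energies `E` (`d ≥ 3`: the whole spectrum; `d = 2`: `κ ≤ |E - 4| ≤ 4 - κ`, that is, away from
  the band edges and from the van Hove singularity),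
* all scales `c^{2 + 1/40} ≤ η ≤ σ²` (the kinetic scale is `c²`).

Let `u = (Δ_ω - E - iη)⁻¹ δ_a`. Then
`η² σ² ∑_x (x_j - a_j)² |u(x)|² = 2 Im G₁(E) / (η / σ² + Im G₀(E)) + O(c^{1/300})`, where
`Im G₀(E) = π ∫ δ(E - ε(k)) dk`, `Im G₁(E) = π ∫ sin²(2πk_1) δ(E - ε(k)) dk`,
`ε(k) = ∑ (2 - 2 cos 2πk_i)`. As `∑ |u(x)|² = Im u(a) / η`, the motion at energy `E` is diffusive
below the kinetic scale, with the diffusion constant `Im G₁(E) / (σ² (Im G₀(E))²)` of the linear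
Boltzmann equation; `Im G₁(E)` is bounded below for `κ ≤ E ≤ 4 d - κ`. So for a fixed realisation of
the disorder, at every such energy, the resolvent spreads to distances of order
`c^{-1} η^{-1/2} ≥ c^{-2-1/80}`: no trace of localization is seen at these scales, in `d = 2` either.
-/

set_option autoImplicit false

open scoped BigOperators ENNReal Topology
open MeasureTheory Filter

namespace Pool.Agent.Results.MP_562b47_mp.ResolventDiffusion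

/-- `(Δ_ω u)(x) = -∑_{|n|=1} (u(x+n) - u(x)) + ω_x u(x)` -/
noncomputable def H {d : ℕ} (ω : (Fin d → ℤ) → ℝ) (u : (Fin d → ℤ) → ℂ) (x : Fin d → ℤ) : ℂ :=
  -∑ i : Fin d, ((u (x + Pi.single i 1) - u x) + (u (x - Pi.single i 1) - u x)) + (ω x : ℂ) * u x

/-- `u = (Δ_ω - E - iη)⁻¹ δ_a` in `ℓ²(ℤ^d)` -/
structure IsGreen {d : ℕ} (ω : (Fin d → ℤ) → ℝ) (a : Fin d → ℤ) (E η : ℝ)
    (u : (Fin d → ℤ) → ℂ) : Prop where
  sq : Summable fun x => ‖u x‖ ^ 2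
  eq : ∀ x, H ω u x - ((E : ℂ) + (η : ℂ) * Complex.I) * u x = if x = a then 1 else 0

/-- the uniform measure on the cube `[0, 1]^d` -/
noncomputable def cube (d : ℕ) : Measure (Fin d → ℝ) :=
  Measure.pi fun _ : Fin d => volume.restrict (Set.Icc (0 : ℝ) 1)

/-- the symbol `ε(k) = ∑ (2 - 2 cos 2πk_i)` of `-Δ` -/
noncomputable def eps {d : ℕ} (k : Fin d → ℝ) : ℝ := ∑ i, (2 - 2 * Real.cos (2 * Real.pi * k i))

/-- the free Green function `∫ (E - ε(k) - iη)⁻¹ dk` -/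
noncomputable def g0 (d : ℕ) (E η : ℝ) : ℂ :=
  ∫ k, ((E : ℂ) - (eps k : ℂ) - (η : ℂ) * Complex.I)⁻¹ ∂(cube d)

/-- the integral `∫ sin²(2πk_j) (E - ε(k) - iη)⁻¹ dk` -/
noncomputable def g1 (d : ℕ) (j : Fin d) (E η : ℝ) : ℂ :=
  ∫ k, ((Real.sin (2 * Real.pi * k j) ^ 2 : ℝ) : ℂ) *
    ((E : ℂ) - (eps k : ℂ) - (η : ℂ) * Complex.I)⁻¹ ∂(cube d)

/-- the energies: in dimension two, away from the edges and from the van Hove singularity -/
def Regular (d : ℕ) (κ E : ℝ) : Prop :=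
  (d = 2 ∧ κ ≤ |E - 4| ∧ |E - 4| ≤ 4 - κ) ∨ (3 ≤ d ∧ |E - 2 * d| ≤ 3 * d)

theorem eps_eq {d : ℕ} (k : Fin d → ℝ) : eps k = 2 * d - Pool.Agent.TH794.QE.sym k := by
  unfold eps Pool.Agent.TH794.QE.sym
  rw [Finset.sum_sub_distrib, Finset.sum_const, Finset.card_univ, Fintype.card_fin, nsmul_eq_mul]
  ring

theorem den_eq {d : ℕ} (k : Fin d → ℝ) (E η : ℝ) :
    (E : ℂ) - (eps k : ℂ) - (η : ℂ) * Complex.I = (Pool.Agent.TH794.QE.sym k : ℂ) -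
      (((2 * (d : ℝ) - E : ℝ) : ℂ) + (η : ℂ) * Complex.I) := by
  rw [eps_eq]
  push_cast
  ring

theorem g0_eq (d : ℕ) (E η : ℝ) (hη : 0 < η) : g0 d E η =
    Pool.Agent.TH794.QD.GF (Pool.Agent.TH794.QD.F0 d)
      (((2 * (d : ℝ) - E : ℝ) : ℂ) + (η : ℂ) * Complex.I) := by
  rw [Pool.Agent.TH794.QE.GF0_cube d _ (by simpa using hη)]
  unfold g0
  simp only [den_eq]
  rfl

theorem g1_eq (d : ℕ) (E η : ℝ) (hη : 0 < η) : g1 (d + 1) 0 E η =
    Pool.Agent.TH794.QD.GF (Pool.Agent.TH794.QD.F1 (d + 1))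
      (((2 * ((d + 1 : ℕ) : ℝ) - E : ℝ) : ℂ) + (η : ℂ) * Complex.I) := by
  rw [Pool.Agent.TH794.QE.GF1_cube d _ (by simpa using hη)]
  unfold g1
  simp only [den_eq]
  rfl

theorem green_iff {d : ℕ} (ω : (Fin d → ℤ) → ℝ) (a : Fin d → ℤ) (E η : ℝ)
    (u : (Fin d → ℤ) → ℂ) : IsGreen ω a E η u ↔
      Pool.Agent.TH794.QE.Rs d (fun x => 2 * d + ω x) a E η u := by
  have h : ∀ x, H ω u x = -Pool.Agent.W788.LD.Spec.S u x + ((2 * d + ω x : ℝ) : ℂ) * u x := by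
    intro x
    unfold H Pool.Agent.W788.LD.Spec.S
    have h1 : ∑ i : Fin d, ((u (x + Pi.single i 1) - u x) + (u (x - Pi.single i 1) - u x)) =
        ∑ i : Fin d, (u (x + Pi.single i 1) + u (x - Pi.single i 1)) - 2 * (d : ℂ) * u x := by
      rw [Finset.sum_add_distrib, Finset.sum_sub_distrib, Finset.sum_sub_distrib,
        Finset.sum_add_distrib]
      simp
      ring
    rw [h1]
    push_cast
    ring
  constructor
  · intro hu
    refine ⟨hu.sq, fun x => ?_⟩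
    rw [← h]
    exact hu.eq x
  · intro hu
    refine ⟨hu.sq, fun x => ?_⟩
    rw [h]
    exact hu.eq x

theorem reg_iff (d : ℕ) (κ E : ℝ) :
    Regular d κ E ↔ Pool.Agent.TH794.QE.RegE d κ (2 * (d : ℝ) - E) := by
  unfold Regular Pool.Agent.TH794.QE.RegE
  rw [abs_sub_comm E (2 * (d : ℝ))]
  constructor
  · rintro (⟨h1, h2, h3⟩ | h)
    · left
      have e1 : |2 * (d : ℝ) - E| = |E - 4| := by
        rw [h1, abs_sub_comm]
        norm_num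
      rw [e1]
      exact ⟨h1, h2, h3⟩
    · exact Or.inr h
  · rintro (⟨h1, h2, h3⟩ | h)
    · left
      have e1 : |2 * (d : ℝ) - E| = |E - 4| := by
        rw [h1, abs_sub_comm]
        norm_num
      rw [e1] at h2 h3
      exact ⟨h1, h2, h3⟩
    · exact Or.inr h

/-- **Theorem.** -/
theorem result (d : ℕ) (hd : 2 ≤ d) :
    ∃ G0 G1 : ℝ → ℂ, ∀ κ : ℝ, 0 < κ → κ ≤ 1 →
      (∀ E, Regular d κ E → Tendsto (fun η => g0 d E η) (𝓝[>] 0) (𝓝 (G0 E)) ∧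
        Tendsto (fun η => g1 d ⟨0, by omega⟩ E η) (𝓝[>] 0) (𝓝 (G1 E)) ∧
        (G1 E).im ≤ (G0 E).im) ∧
      (∃ m : ℝ, 0 < m ∧ ∀ E, Regular d κ E → κ ≤ E → E ≤ 4 * d - κ → m ≤ (G1 E).im) ∧
      ∀ v : ℝ, 0 < v → ∃ c0 : ℝ, 0 < c0 ∧ ∀ c : ℝ, 0 < c → c ≤ c0 →
      ∀ (μ : Measure ℝ) [IsProbabilityMeasure μ], (∀ᵐ s ∂μ, |s| ≤ c) → ∫ s, s ∂μ = 0 →
      ∀ s2 : ℝ, ∫ s, s ^ 2 ∂μ = s2 → v * c ^ 2 ≤ s2 →
        ∃ G : Set ((Fin d → ℤ) → ℝ), MeasurableSet G ∧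
          1 - Real.exp (-c ^ (-(1 / 101) : ℝ)) ≤
            (Measure.infinitePi fun _ : Fin d → ℤ => μ).real G ∧
          ∀ ω ∈ G, (∀ x, |ω x| ≤ c) ∧
            ∀ a : Fin d → ℤ, ‖a‖ ≤ Real.exp (c ^ (-(1 / 101) : ℝ)) →
            ∀ E : ℝ, Regular d κ E → ∀ η : ℝ, c ^ (81 / 40 : ℝ) ≤ η → η ≤ s2 →
              (∃ u, IsGreen ω a E η u) ∧
              ∀ u, IsGreen ω a E η u → ∀ j : Fin d,
                (Summable fun x => ((x j : ℝ) - a j) ^ 2 * ‖u x‖ ^ 2) ∧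
                |η ^ 2 * s2 * ∑' x, ((x j : ℝ) - a j) ^ 2 * ‖u x‖ ^ 2 -
                  2 * ((G1 E).im / (η / s2 + (G0 E).im))| ≤ c ^ (1 / 300 : ℝ) := by
  obtain ⟨γ0, γ1, h⟩ := Pool.Agent.TH794.QE.finF Pool.Agent.W193.BK.ES.es
    (Pool.Agent.W261.BK.third Pool.Agent.W540.BK.fac)
    (Pool.Agent.W240.BK.fluct (Pool.Agent.W240.BK.var Pool.Agent.W193.BK.ES.es))
    Pool.Agent.W475.BK.inv Pool.Agent.W975.BK.sup
    (Pool.Agent.W465.BK.qb (Pool.Agent.W240.BK.two Pool.Agent.W918.BK.Osc.osc))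
    Pool.Agent.W475.BK.low Pool.Agent.W790.BK.ADM.adm Pool.Agent.W540.BK.fac
    Pool.Agent.W918.BK.Osc.osc d hd
  refine ⟨fun E => γ0 (2 * d - E), fun E => γ1 (2 * d - E), fun κ hκ hκ1 => ?_⟩
  obtain ⟨h1, ⟨m, hm, h2⟩, h3⟩ := h κ hκ hκ1
  refine ⟨fun E hE => ?_, ⟨m, hm, fun E hE hE1 hE2 => ?_⟩, fun v hv => ?_⟩
  · obtain ⟨l0, l1, -, l3⟩ := h1 _ ((reg_iff d κ E).1 hE)
    refine ⟨?_, ?_, l3⟩
    · refine l0.congr' ?_
      filter_upwards [self_mem_nhdsWithin] with η hη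
      exact (g0_eq d E η hη).symm
    · refine l1.congr' ?_
      filter_upwards [self_mem_nhdsWithin] with η hη
      obtain ⟨n, rfl⟩ : ∃ n, d = n + 1 := ⟨d - 1, by omega⟩
      exact (g1_eq n E η hη).symm
  · refine h2 _ ((reg_iff d κ E).1 hE) ?_
    rw [abs_le]
    constructor <;> linarith
  · obtain ⟨c0, hc0, hc⟩ := h3 v hv
    refine ⟨c0, hc0, fun c hc1 hc2 μ hμ hμb hμ0 s2 hs2 hvs => ?_⟩
    obtain ⟨G, hG, hP, hL⟩ := hc c hc1 hc2 μ hμ hμb hμ0 s2 hs2 hvs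
    refine ⟨G, hG, hP, fun ω hω => ⟨(hL ω hω).1, fun a ha E hE η hη1 hη2 => ?_⟩⟩
    have hη0 : 0 < η := lt_of_lt_of_le (Real.rpow_pos_of_pos hc1 _) hη1
    refine ⟨?_, fun u hu j => ?_⟩
    · obtain ⟨u, hu⟩ := Pool.Agent.TH794.QE.rs_exists (fun x => 2 * (d : ℝ) + ω x) (2 * d + c)
        (fun x => by
          refine (abs_add_le _ _).trans ?_
          rw [abs_of_nonneg (by positivity : (0 : ℝ) ≤ 2 * d)]
          linarith [(hL ω hω).1 x]) a E η hη0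
      exact ⟨u, (green_iff ω a E η u).2 hu⟩
    · exact (hL ω hω).2 a ha E ((reg_iff d κ E).1 hE) η hη1 hη2 u ((green_iff ω a E η u).1 hu) j

end Pool.Agent.Results.MP_562b47_mp.ResolventDiffusion
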